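import Pool.Agent.helper79.TwStmt

/-!
# Twisted sums from operators without lifting
-/

open MeasureTheory Topology Set Filter
open scoped ENNReal BoundedContinuousFunction ZeroAtInfty

universe u

namespace Pool.Agent.helper20.Tw

open Pool.Agent.helper79.Tw

/-- composition with a continuous map, as a bounded operator -/
noncomputable def compR {K L : Type*} [TopologicalSpace L] [CompactSpace L] [TopologicalSpace K]
    [CompactSpace K] (i : C(L, K)) : C(K, ℝ) →L[ℝ] C(L, ℝ) :=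
  ⟨(ContinuousMap.compRightAlgHom ℝ ℝ i).toLinearMap,
    ContinuousMap.compRightAlgHom_continuous (R := ℝ) (A := ℝ) i⟩

lemma compR_apply {K L : Type*} [TopologicalSpace L] [CompactSpace L] [TopologicalSpace K]
    [CompactSpace K] (i : C(L, K)) (f : C(K, ℝ)) : compR i f = f.comp i := rfl

theorem NT_transfer {L K : Type*} [TopologicalSpace L] [CompactSpace L] [TopologicalSpace K]
    [CompactSpace K] (i : C(L, K)) (ρ : C(K, L)) (h : ∀ x, ρ (i x) = x) : NT L → NT K := by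
  rintro ⟨G, hG, h1, h2, h3⟩
  let Φ : (C(K, ℝ) × (ℕ →ᵇ ℝ)) →L[ℝ] (C(L, ℝ) × (ℕ →ᵇ ℝ)) :=
    (compR i).prodMap (ContinuousLinearMap.id ℝ (ℕ →ᵇ ℝ))
  have hΦ : ∀ f g, Φ (f, g) = (f.comp i, g) := fun f g => rfl
  refine ⟨G.comap (Φ : (C(K, ℝ) × (ℕ →ᵇ ℝ)) →ₗ[ℝ] (C(L, ℝ) × (ℕ →ᵇ ℝ))),
    hG.preimage Φ.continuous, fun f => ?_, fun g => ?_, ?_⟩
  · obtain ⟨g, hg⟩ := h1 (f.comp i)
    exact ⟨g, hg⟩
  · rw [← h2 g]
    show Φ (0, g) ∈ G ↔ _
    rw [hΦ, show ((0 : C(K, ℝ)).comp i) = 0 from rfl]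
  · rintro ⟨T, hT⟩
    apply h3
    refine ⟨T.comp (compR ρ), fun f => ?_⟩
    have := hT (f.comp ρ)
    have h4 : Φ (f.comp ρ, T (f.comp ρ)) ∈ G := this
    rw [hΦ] at h4
    have e : (f.comp ρ).comp i = f := by
      ext x
      simp [h]
    rw [e] at h4
    exact h4

lemma split_of_retract {X Y Z : Type*} [NormedAddCommGroup X] [NormedSpace ℝ X] [CompleteSpace X]
    [NormedAddCommGroup Y] [NormedSpace ℝ Y] [CompleteSpace Y] [NormedAddCommGroup Z]
    [NormedSpace ℝ Z] (i : Z →L[ℝ] X) (q : X →L[ℝ] Y) (p : X →L[ℝ] Z) (hp : ∀ c, p (i c) = c)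
    (hqs : Function.Surjective q) (hex1 : ∀ c, q (i c) = 0)
    (hex2 : ∀ x, q x = 0 → ∃ c, i c = x) : ∃ s : Y →L[ℝ] X, ∀ y, q (s y) = y := by
  let P : Submodule ℝ X := p.ker
  have hPc : IsClosed (P : Set X) := p.isClosed_ker
  have : CompleteSpace P := hPc.completeSpace_coe
  let qP : P →L[ℝ] Y := q.comp P.subtypeL
  have hker : qP.ker = ⊥ := by
    rw [LinearMap.ker_eq_bot']
    intro x hx
    have hx1 : q x.1 = 0 := hx
    obtain ⟨c, hc⟩ := hex2 _ hx1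
    have hx3 : p x.1 = 0 := x.2
    rw [← hc, hp] at hx3
    apply Subtype.ext
    rw [← hc, hx3, map_zero]
    rfl
  have hran : qP.range = ⊤ := by
    rw [LinearMap.range_eq_top]
    intro f
    obtain ⟨x, hx⟩ := hqs f
    have hmem : x - i (p x) ∈ P := by
      show p (x - i (p x)) = 0
      rw [map_sub, hp, sub_self]
    refine ⟨⟨x - i (p x), hmem⟩, ?_⟩
    show q (x - i (p x)) = f
    rw [map_sub, hx, hex1, sub_zero]
  let e := ContinuousLinearEquiv.ofBijective qP hker hran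
  exact ⟨P.subtypeL.comp (e.symm : Y →L[ℝ] P), fun f => e.apply_symm_apply f⟩

theorem twisted_of_NT {K : Type u} [TopologicalSpace K] [CompactSpace K] [T2Space K] (h : NT K) :
    ∃ (X : Type u) (_ : NormedAddCommGroup X) (_ : NormedSpace ℝ X) (_ : CompleteSpace X)
      (i : C₀(ℕ, ℝ) →L[ℝ] X) (q : X →L[ℝ] C(K, ℝ)),
      Isometry i ∧ Function.Injective i ∧ Function.Surjective q ∧
      LinearMap.range (i : C₀(ℕ, ℝ) →ₗ[ℝ] X) = LinearMap.ker (q : X →ₗ[ℝ] C(K, ℝ)) ∧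
      ¬ ∃ p : X →L[ℝ] C₀(ℕ, ℝ), ∀ c, p (i c) = c := by
  obtain ⟨G, hG, h1, h2, h3⟩ := h
  have : CompleteSpace G := hG.completeSpace_coe
  have hc0 : ∀ c : C₀(ℕ, ℝ), ((0 : C(K, ℝ)), c.toBCF) ∈ G := by
    intro c
    rw [h2]
    have := c.zero_at_infty'
    rw [cocompact_eq_cofinite, Nat.cofinite_eq_atTop] at this
    exact this
  let iL : C₀(ℕ, ℝ) →ₗ[ℝ] G :=
    { toFun := fun c => ⟨((0 : C(K, ℝ)), c.toBCF), hc0 c⟩
      map_add' := fun a b => by
        apply Subtype.ext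
        exact Prod.ext (by simp) rfl
      map_smul' := fun a b => by
        apply Subtype.ext
        exact Prod.ext (by simp) rfl }
  have hisoL : Isometry iL := Isometry.of_dist_eq fun a b => by
    show dist ((0 : C(K, ℝ)), a.toBCF) ((0 : C(K, ℝ)), b.toBCF) = dist a b
    rw [Prod.dist_eq, dist_self, max_eq_right dist_nonneg]
    rfl
  let i : C₀(ℕ, ℝ) →L[ℝ] G := ⟨iL, hisoL.continuous⟩
  have hi : ∀ c, i c = ⟨((0 : C(K, ℝ)), c.toBCF), hc0 c⟩ := fun c => rfl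
  let q : G →L[ℝ] C(K, ℝ) := (ContinuousLinearMap.fst ℝ (C(K, ℝ)) (ℕ →ᵇ ℝ)).comp G.subtypeL
  have hq : ∀ x, q x = x.1.1 := fun x => rfl
  have hiso : Isometry i := hisoL
  have hqs : Function.Surjective q := by
    intro f
    obtain ⟨g, hg⟩ := h1 f
    exact ⟨⟨(f, g), hg⟩, rfl⟩
  have hex : LinearMap.range (i : C₀(ℕ, ℝ) →ₗ[ℝ] G) = LinearMap.ker (q : G →ₗ[ℝ] C(K, ℝ)) := by
    ext x
    rw [LinearMap.mem_range, LinearMap.mem_ker]
    constructor
    · rintro ⟨c, rfl⟩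
      rfl
    · intro hx
      obtain ⟨⟨f, g⟩, hfg⟩ := x
      have hf : f = 0 := hx
      subst hf
      have hg := (h2 g).1 hfg
      refine ⟨⟨⟨g, g.continuous⟩, ?_⟩, ?_⟩
      · rw [cocompact_eq_cofinite, Nat.cofinite_eq_atTop]
        exact hg
      · rfl
  refine ⟨G, inferInstance, inferInstance, inferInstance, i, q, hiso, hiso.injective, hqs, hex, ?_⟩
  rintro ⟨p, hp⟩
  apply h3
  obtain ⟨s, hs⟩ := split_of_retract i q p hp hqs (fun c => rfl) (fun x hx => by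
    have hx2 : x ∈ LinearMap.ker (q : G →ₗ[ℝ] C(K, ℝ)) := hx
    rw [← hex] at hx2
    exact hx2)
  refine ⟨(ContinuousLinearMap.snd ℝ (C(K, ℝ)) (ℕ →ᵇ ℝ)).comp (G.subtypeL.comp s), fun f => ?_⟩
  have h5 : (s f).1 ∈ G := (s f).2
  have h6 : (s f).1 = (f, (s f).1.2) := Prod.ext (hs f) rfl
  rw [h6] at h5
  exact h5

end Pool.Agent.helper20.Tw
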