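import Mathlib

/-!
# A bounded functional on `C(L)` is dominated by a finite measure
-/

open MeasureTheory Topology Set Filter
open scoped ENNReal NNReal CompactlySupported Pointwise

namespace Pool.Agent.helper20.Tw

variable {L : Type*} [TopologicalSpace L] [CompactSpace L]

/-- values of `m` on functions dominated by `f` -/
def tvSet (m : C(L, ℝ) →L[ℝ] ℝ) (f : C_c(L, ℝ≥0)) : Set ℝ :=
  {r | ∃ g : C(L, ℝ), (∀ x, |g x| ≤ f x) ∧ m g = r}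

lemma tv_bdd (m : C(L, ℝ) →L[ℝ] ℝ) (f : C_c(L, ℝ≥0)) : BddAbove (tvSet m f) := by
  let fR : C(L, ℝ) := ⟨fun x => (f x : ℝ), by fun_prop⟩
  refine ⟨‖m‖ * ‖fR‖, ?_⟩
  rintro _ ⟨g, hg, rfl⟩
  have h1 : ‖g‖ ≤ ‖fR‖ := by
    rw [ContinuousMap.norm_le _ (norm_nonneg _)]
    intro x
    calc ‖g x‖ = |g x| := rfl
      _ ≤ f x := hg x
      _ ≤ |(f x : ℝ)| := le_abs_self _
      _ = ‖fR x‖ := rfl
      _ ≤ ‖fR‖ := ContinuousMap.norm_coe_le_norm fR x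
  calc m g ≤ ‖m g‖ := Real.le_norm_self _
    _ ≤ ‖m‖ * ‖g‖ := m.le_opNorm g
    _ ≤ ‖m‖ * ‖fR‖ := by gcongr

omit [CompactSpace L] in
lemma tv_zero_mem (m : C(L, ℝ) →L[ℝ] ℝ) (f : C_c(L, ℝ≥0)) : (0 : ℝ) ∈ tvSet m f :=
  ⟨0, fun x => by simp, by simp⟩

omit [CompactSpace L] in
lemma tv_add (m : C(L, ℝ) →L[ℝ] ℝ) (f₁ f₂ : C_c(L, ℝ≥0)) :
    tvSet m (f₁ + f₂) = tvSet m f₁ + tvSet m f₂ := by
  apply Subset.antisymm
  · rintro _ ⟨g, hg, rfl⟩
    let F : C(L, ℝ) := ⟨fun x => (f₁ x : ℝ), by fun_prop⟩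
    let g₁ : C(L, ℝ) := (-F) ⊔ (F ⊓ g)
    have hv : ∀ x, g₁ x = max (-(f₁ x : ℝ)) (min (f₁ x : ℝ) (g x)) := fun x => rfl
    refine Set.mem_add.2 ⟨m g₁, ⟨g₁, fun x => ?_, rfl⟩, m (g - g₁), ⟨g - g₁, fun x => ?_, rfl⟩, ?_⟩
    · rw [hv, abs_le]
      constructor
      · exact le_max_left _ _
      · have : (0 : ℝ) ≤ f₁ x := (f₁ x).2
        exact max_le (by linarith) (min_le_left _ _)
    · have h1 := hg x
      have h2 : (0 : ℝ) ≤ f₁ x := (f₁ x).2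
      have h3 : (0 : ℝ) ≤ f₂ x := (f₂ x).2
      rw [ContinuousMap.sub_apply, hv]
      have h4 : ((f₁ + f₂) x : ℝ) = f₁ x + f₂ x := by simp
      have h1' : |g x| ≤ f₁ x + f₂ x := by rw [← h4]; exact h1
      rw [abs_le] at h1' ⊢
      rcases le_total (f₁ x : ℝ) (g x) with c | c
      · rw [min_eq_left c, max_eq_right (by linarith)]
        constructor <;> linarith
      · rw [min_eq_right c]
        rcases le_total (-(f₁ x : ℝ)) (g x) with d | d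
        · rw [max_eq_right d]; constructor <;> linarith
        · rw [max_eq_left d]; constructor <;> linarith
    · rw [map_sub]; ring
  · rintro _ ⟨_, ⟨g₁, h1, rfl⟩, _, ⟨g₂, h2, rfl⟩, rfl⟩
    refine ⟨g₁ + g₂, fun x => ?_, by simp⟩
    have h4 : ((f₁ + f₂) x : ℝ) = f₁ x + f₂ x := by simp
    rw [ContinuousMap.add_apply]
    calc |g₁ x + g₂ x| ≤ |g₁ x| + |g₂ x| := abs_add_le _ _
      _ ≤ f₁ x + f₂ x := add_le_add (h1 x) (h2 x)
      _ = _ := h4.symm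

omit [CompactSpace L] in
lemma tv_smul (m : C(L, ℝ) →L[ℝ] ℝ) (f : C_c(L, ℝ≥0)) (c : ℝ≥0) :
    tvSet m (c • f) = (c : ℝ) • tvSet m f := by
  rcases eq_or_ne c 0 with rfl | hc
  · rw [NNReal.coe_zero, zero_smul_set ⟨0, tv_zero_mem m f⟩]
    apply Subset.antisymm
    · rintro _ ⟨g, hg, rfl⟩
      have : g = 0 := by
        ext x
        have := hg x
        simpa using this
      rw [this, map_zero]; rfl
    · rintro _ rfl
      exact tv_zero_mem m _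
  · have hc' : (c : ℝ) ≠ 0 := NNReal.coe_ne_zero.2 hc
    have hcp : 0 < (c : ℝ) := lt_of_le_of_ne c.2 (Ne.symm hc')
    have hv : ∀ x, ((c • f) x : ℝ) = c * f x := fun x => by simp
    apply Subset.antisymm
    · rintro _ ⟨g, hg, rfl⟩
      refine Set.mem_smul_set.2 ⟨m ((c : ℝ)⁻¹ • g), ⟨(c : ℝ)⁻¹ • g, fun x => ?_, rfl⟩, ?_⟩
      · have := hg x
        rw [hv] at this
        rw [ContinuousMap.smul_apply, smul_eq_mul, abs_mul, abs_of_pos (inv_pos.2 hcp)]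
        rw [inv_mul_le_iff₀ hcp]
        exact this
      · rw [map_smul, smul_smul, mul_inv_cancel₀ hc', one_smul]
    · rintro _ ⟨_, ⟨g, hg, rfl⟩, rfl⟩
      refine ⟨(c : ℝ) • g, fun x => ?_, by simp⟩
      rw [hv, ContinuousMap.smul_apply, smul_eq_mul, abs_mul, abs_of_pos hcp]
      exact mul_le_mul_of_nonneg_left (hg x) hcp.le

lemma tv_nonneg (m : C(L, ℝ) →L[ℝ] ℝ) (f : C_c(L, ℝ≥0)) : 0 ≤ sSup (tvSet m f) :=
  le_csSup (tv_bdd m f) (tv_zero_mem m f)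

/-- the total variation of a functional -/
noncomputable def tvLin (m : C(L, ℝ) →L[ℝ] ℝ) : C_c(L, ℝ≥0) →ₗ[ℝ≥0] ℝ≥0 where
  toFun f := ⟨sSup (tvSet m f), tv_nonneg m f⟩
  map_add' f₁ f₂ := by
    apply NNReal.eq
    show sSup (tvSet m (f₁ + f₂)) = sSup (tvSet m f₁) + sSup (tvSet m f₂)
    rw [tv_add, csSup_add ⟨0, tv_zero_mem m f₁⟩ (tv_bdd m f₁) ⟨0, tv_zero_mem m f₂⟩ (tv_bdd m f₂)]
  map_smul' c f := by
    apply NNReal.eq
    show sSup (tvSet m (c • f)) = c * sSup (tvSet m f)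
    rw [tv_smul, Real.sSup_smul_of_nonneg c.coe_nonneg, smul_eq_mul]

theorem exists_measure {L : Type*} [TopologicalSpace L] [CompactSpace L] [T2Space L]
    [MeasurableSpace L] [BorelSpace L] (m : C(L, ℝ) →L[ℝ] ℝ) :
    ∃ ν : Measure L, IsFiniteMeasure ν ∧ ∀ f : C(L, ℝ), 0 ≤ f → |m f| ≤ ∫ x, f x ∂ν := by
  refine ⟨NNRealRMK.rieszMeasure (tvLin m), inferInstance, fun f hf => ?_⟩
  let F : C_c(L, ℝ≥0) := ⟨⟨fun x => ⟨f x, hf x⟩, by fun_prop⟩, HasCompactSupport.of_compactSpace _⟩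
  have h1 : ∫ x, f x ∂(NNRealRMK.rieszMeasure (tvLin m)) = tvLin m F := by
    rw [← NNRealRMK.integral_rieszMeasure (tvLin m) F]
    rfl
  rw [h1]
  show |m f| ≤ sSup (tvSet m F)
  have hF : ∀ x, |f x| ≤ F x := fun x => by
    have h0 : 0 ≤ f x := hf x
    rw [abs_of_nonneg h0]; rfl
  rw [abs_le']
  constructor
  · exact le_csSup (tv_bdd m F) ⟨f, hF, rfl⟩
  · exact le_csSup (tv_bdd m F) ⟨-f, fun x => by rw [ContinuousMap.neg_apply, abs_neg]; exact hF x,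
      by simp⟩

end Pool.Agent.helper20.Tw
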