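import Pool.Agent.helper79.TwBase

/-!
# Corson compacta: retraction skeletons of length `ω₁`
-/

open MeasureTheory Topology Set Filter
open scoped ENNReal

universe u

namespace Pool.Agent.helper20.Tw

open Pool.Agent.helper79.Tw

section cut

variable {κ : Type u}

open Classical in
/-- restriction of a function to `A`, extended by zero -/
noncomputable def cut (A : Set κ) (x : κ → ℝ) : κ → ℝ := fun a => if a ∈ A then x a else 0

lemma cut_mem {A : Set κ} {x : κ → ℝ} {a : κ} (h : a ∈ A) : cut A x a = x a := by simp [cut, h]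

lemma cut_not_mem {A : Set κ} {x : κ → ℝ} {a : κ} (h : a ∉ A) : cut A x a = 0 := by simp [cut, h]

lemma continuous_cut (A : Set κ) : Continuous (cut A) := by
  rw [continuous_pi_iff]
  intro a
  by_cases h : a ∈ A
  · simp only [cut, h, if_true]; exact continuous_apply a
  · simp only [cut, h, if_false]; exact continuous_const

lemma cut_cut (A B : Set κ) (x : κ → ℝ) : cut A (cut B x) = cut (A ∩ B) x := by
  funext a
  by_cases h : a ∈ A <;> by_cases h' : a ∈ B <;> simp [cut, h, h']

lemma cut_eq_self {A : Set κ} {x : κ → ℝ} (h : ∀ a, a ∉ A → x a = 0) : cut A x = x := by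
  funext a
  by_cases ha : a ∈ A
  · exact cut_mem ha
  · rw [cut_not_mem ha, h a ha]

lemma cut_congr {A B : Set κ} {x : κ → ℝ} (h : ∀ a, x a ≠ 0 → (a ∈ A ↔ a ∈ B)) :
    cut A x = cut B x := by
  funext a
  by_cases hx : x a = 0
  · by_cases h1 : a ∈ A <;> by_cases h2 : a ∈ B <;> simp [cut, h1, h2, hx]
  · have := h a hx
    by_cases h1 : a ∈ A
    · simp [cut, h1, this.1 h1]
    · have h2 : a ∉ B := fun h2 => h1 (this.2 h2)
      simp [cut, h1, h2]

/-- `A` is good for `S` if cutting at `A` maps `S` to itself -/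
def Good (S : Set (κ → ℝ)) (A : Set κ) : Prop := ∀ x ∈ S, cut A x ∈ S

variable {S : Set (κ → ℝ)}

/-- one step: a countable set of points of `S` whose restrictions to `A` are dense -/
lemma exists_dense_step (A : Set κ) (hA : A.Countable) :
    ∃ D ⊆ S, D.Countable ∧ ∀ x ∈ S, (fun a : A => x a) ∈
      closure ((fun (y : κ → ℝ) (a : A) => y a) '' D) := by
  have : Countable A := hA.to_subtype
  set R : (κ → ℝ) → (A → ℝ) := fun y a => y a
  obtain ⟨t, ht, hd⟩ := TopologicalSpace.exists_countable_dense (R '' S)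
  have hch : ∀ y : R '' S, ∃ x ∈ S, R x = y := fun y => y.2
  choose g hg hg' using hch
  refine ⟨g '' t, ?_, ht.image g, ?_⟩
  · rintro _ ⟨y, -, rfl⟩; exact hg y
  · intro x hx
    have h1 : (⟨R x, mem_image_of_mem R hx⟩ : R '' S) ∈ closure t := hd _
    have h2 := image_closure_subset_closure_image (continuous_subtype_val (p := (· ∈ R '' S)))
      (mem_image_of_mem _ h1)
    refine closure_mono ?_ h2
    rintro _ ⟨y, hy, rfl⟩
    exact ⟨g y, mem_image_of_mem g hy, hg' y⟩

/-- every countable set is contained in a good countable set -/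
lemma exists_good (hS : IsClosed S) (hc : ∀ x ∈ S, {a | x a ≠ 0}.Countable) (A₀ : Set κ)
    (h₀ : A₀.Countable) : ∃ A, A₀ ⊆ A ∧ A.Countable ∧ Good S A := by
  classical
  have hstep : ∀ A : {A : Set κ // A.Countable}, ∃ D ⊆ S, D.Countable ∧ ∀ x ∈ S,
      (fun a : A.1 => x a) ∈ closure ((fun (y : κ → ℝ) (a : A.1) => y a) '' D) :=
    fun A => exists_dense_step A.1 A.2
  choose D hDS hDc hDd using hstep
  set nx : {A : Set κ // A.Countable} → {A : Set κ // A.Countable} := fun A =>
    ⟨A.1 ∪ ⋃ d ∈ D A, {a | d a ≠ 0}, A.2.union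
      ((hDc A).biUnion fun d hd => hc d (hDS A hd))⟩ with hnx
  set F : ℕ → {A : Set κ // A.Countable} := fun n => nx^[n] ⟨A₀, h₀⟩ with hF
  have hF1 : ∀ n, F (n + 1) = nx (F n) := fun n => by
    simp only [hF, Function.iterate_succ_apply']
  have hmono : ∀ n, (F n).1 ⊆ (F (n + 1)).1 := by
    intro n
    rw [hF1]
    exact subset_union_left
  have hmono' : Monotone (fun n => (F n).1) := monotone_nat_of_le_succ hmono
  refine ⟨⋃ n, (F n).1, ?_, countable_iUnion fun n => (F n).2, ?_⟩
  · exact subset_iUnion (fun n => (F n).1) 0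
  · intro x hx
    rw [← hS.closure_eq]
    rw [mem_closure_iff_nhds]
    intro U hU
    rw [nhds_pi, Filter.mem_pi] at hU
    obtain ⟨I, hI, t, ht, htU⟩ := hU
    -- a stage that contains all relevant coordinates
    have hst : ∃ n, ∀ a ∈ I, a ∈ (⋃ n, (F n).1) → a ∈ (F n).1 := by
      have : ∀ a : κ, ∃ n, a ∈ (⋃ n, (F n).1) → a ∈ (F n).1 := by
        intro a
        by_cases ha : a ∈ ⋃ n, (F n).1
        · obtain ⟨n, hn⟩ := mem_iUnion.1 ha
          exact ⟨n, fun _ => hn⟩
        · exact ⟨0, fun h => absurd h ha⟩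
      choose m hm using this
      obtain ⟨N, hN⟩ := (hI.image m).bddAbove
      refine ⟨N, fun a ha hmem => ?_⟩
      exact hmono' (hN (mem_image_of_mem m ha)) (hm a hmem)
    obtain ⟨n, hn⟩ := hst
    have hcl := hDd (F n) x hx
    rw [mem_closure_iff_nhds] at hcl
    have hV : {y : (F n).1 → ℝ | ∀ a (ha : a ∈ (F n).1), a ∈ I → y ⟨a, ha⟩ ∈ t a} ∈
        𝓝 (fun a : (F n).1 => x a) := by
      rw [nhds_pi, Filter.mem_pi]
      refine ⟨{a | a.1 ∈ I}, ?_, fun a => t a.1, ?_, ?_⟩
      · exact hI.preimage Subtype.val_injective.injOn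
      · intro a
        have := ht a.1
        rwa [cut_mem (mem_iUnion.2 ⟨n, a.2⟩)] at this
      · intro y hy a ha haI
        exact hy ⟨a, ha⟩ haI
    obtain ⟨_, hy1, d, hd, rfl⟩ := hcl _ hV
    refine ⟨d, htU ?_, hDS _ hd⟩
    intro a haI
    by_cases ha : a ∈ ⋃ n, (F n).1
    · exact hy1 a (hn a haI ha) haI
    · have : d a = 0 := by
        by_contra hda
        apply ha
        refine mem_iUnion.2 ⟨n + 1, ?_⟩
        rw [hF1]
        exact Or.inr (mem_biUnion hd hda)
      rw [this]
      have h3 := mem_of_mem_nhds (ht a)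
      rwa [cut_not_mem ha] at h3

/-- countable good sets do not exhaust a nonmetrizable `S` -/
lemma exists_not_mem (hS : IsCompact S) (hnm : ¬ TopologicalSpace.MetrizableSpace S) (A : Set κ)
    (hA : A.Countable) : ∃ a, a ∉ A ∧ ∃ x ∈ S, x a ≠ 0 := by
  by_contra hcon
  push Not at hcon
  apply hnm
  have : Countable A := hA.to_subtype
  have : CompactSpace S := isCompact_iff_compactSpace.1 hS
  let R : S → (A → ℝ) := fun y a => y.1 a
  have hR : Continuous R := by
    apply continuous_pi
    intro a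
    exact (continuous_apply _).comp continuous_subtype_val
  have hinj : Function.Injective R := by
    intro x y hxy
    apply Subtype.ext
    funext a
    by_cases ha : a ∈ A
    · exact congrFun hxy ⟨a, ha⟩
    · rw [hcon a ha x.1 x.2, hcon a ha y.1 y.2]
  exact (hR.isClosedEmbedding hinj).isEmbedding.metrizableSpace

end cut

section main

variable {W : Type} [LinearOrder W] [WellFoundedLT W]

omit [WellFoundedLT W] in
/-- a function on a compact space with commuting retractions factors through one of them -/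
lemma fn_of {L : Type*} [TopologicalSpace L] [CompactSpace L] (r : W → L → L)
    (hW' : ∀ C : Set W, C.Countable → ∃ α, ∀ β ∈ C, β ≤ α) [Nonempty W]
    (comp : ∀ α β, α ≤ β → ∀ x, r α (r β x) = r α x)
    {κ : Type*} (φ : κ → C(L, ℝ)) (hsep : ∀ x y, x ≠ y → ∃ a, φ a x ≠ φ a y)
    (hφ : ∀ a, ∃ α, ∀ x, φ a (r α x) = φ a x) (f : C(L, ℝ)) : ∃ α, ∀ x, f (r α x) = f x := by
  have hup : ∀ (g : C(L, ℝ)) (α β : W), α ≤ β → (∀ x, g (r α x) = g x) →
      ∀ x, g (r β x) = g x := by
    intro g α β hab hg x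
    rw [← hg (r β x), comp α β hab x, hg]
  let Alg : Subalgebra ℝ C(L, ℝ) :=
    { carrier := {g | ∃ α, ∀ x, g (r α x) = g x}
      mul_mem' := by
        rintro a b ⟨α, hα⟩ ⟨β, hβ⟩
        refine ⟨max α β, fun x => ?_⟩
        rw [ContinuousMap.mul_apply, ContinuousMap.mul_apply,
          hup a α _ (le_max_left _ _) hα, hup b β _ (le_max_right _ _) hβ]
      add_mem' := by
        rintro a b ⟨α, hα⟩ ⟨β, hβ⟩
        refine ⟨max α β, fun x => ?_⟩
        rw [ContinuousMap.add_apply, ContinuousMap.add_apply,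
          hup a α _ (le_max_left _ _) hα, hup b β _ (le_max_right _ _) hβ]
      algebraMap_mem' := by
        intro c
        exact ⟨Classical.arbitrary W, fun x => rfl⟩ }
  have hAs : Alg.SeparatesPoints := by
    intro x y hxy
    obtain ⟨a, ha⟩ := hsep x y hxy
    exact ⟨φ a, ⟨φ a, hφ a, rfl⟩, ha⟩
  have htop := ContinuousMap.subalgebra_topologicalClosure_eq_top_of_separatesPoints Alg hAs
  have hf : f ∈ closure (Alg : Set C(L, ℝ)) := by
    rw [← Subalgebra.topologicalClosure_coe, htop]
    trivial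
  rw [mem_closure_iff_seq_limit] at hf
  obtain ⟨g, hg, hlim⟩ := hf
  choose α hα using hg
  obtain ⟨β, hβ⟩ := hW' (range α) (countable_range α)
  refine ⟨β, fun x => ?_⟩
  have h1 : Tendsto (fun n => g n (r β x)) atTop (𝓝 (f (r β x))) :=
    ((ContinuousEvalConst.continuous_eval_const (r β x)).tendsto f).comp hlim
  have h2 : Tendsto (fun n => g n x) atTop (𝓝 (f x)) :=
    ((ContinuousEvalConst.continuous_eval_const x).tendsto f).comp hlim
  have h3 : (fun n => g n (r β x)) = fun n => g n x := by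
    funext n
    exact hup (g n) (α n) β (hβ _ (mem_range_self n)) (hα n) x
  rw [h3] at h1
  exact tendsto_nhds_unique h1 h2

theorem exists_skel (hW : ∀ a : W, (Set.Iio a).Countable)
    (hW' : ¬ (Set.univ : Set W).Countable) {K : Type u} [TopologicalSpace K] [CompactSpace K]
    [T2Space K] (hK : IsCorson K) (hm : ¬ TopologicalSpace.MetrizableSpace K) :
    ∃ (L : Type u) (_ : TopologicalSpace L) (_ : CompactSpace L) (_ : T2Space L) (i : C(L, K))
      (ρ : C(K, L)), (∀ x, ρ (i x) = x) ∧ Nonempty (Skel W L) := by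
  classical
  obtain ⟨κ, e, he, hc⟩ := hK
  -- order facts
  have hbd : ∀ C : Set W, C.Countable → ∃ α, ∀ β ∈ C, β < α := by
    intro C hC
    by_contra hcon
    push Not at hcon
    apply hW'
    refine (hC.biUnion fun β _ => (hW β).union (countable_singleton β)).mono ?_
    intro α _
    obtain ⟨β, hβ, hle⟩ := hcon α
    refine mem_biUnion hβ ?_
    rcases hle.lt_or_eq with h | h
    · exact Or.inl h
    · exact Or.inr h
  have hbd' : ∀ C : Set W, C.Countable → ∃ α, ∀ β ∈ C, β ≤ α := fun C hC => by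
    obtain ⟨α, hα⟩ := hbd C hC
    exact ⟨α, fun β hβ => (hα β hβ).le⟩
  have hne : Nonempty W := by
    by_contra hcon
    rw [not_nonempty_iff] at hcon
    exact hW' (Set.countable_univ_iff.2 inferInstance)
  set S : Set (κ → ℝ) := range e with hSdef
  have hScomp : IsCompact S := isCompact_range he.continuous
  have hScl : IsClosed S := hScomp.isClosed
  have hSc : ∀ x ∈ S, {a | x a ≠ 0}.Countable := by
    rintro _ ⟨k, rfl⟩; exact hc k
  let H : K ≃ₜ S := he.toHomeomorph
  have hSm : ¬ TopologicalSpace.MetrizableSpace S := fun h =>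
    hm H.isEmbedding.metrizableSpace
  -- the next step
  have hnext : ∀ B : Set κ, ∃ A, B.Countable → B ⊆ A ∧ A.Countable ∧ Good S A ∧
      ∃ a, a ∉ B ∧ a ∈ A ∧ ∃ x ∈ S, x a ≠ 0 := by
    intro B
    by_cases hB : B.Countable
    · obtain ⟨a, ha, x, hx, hxa⟩ := exists_not_mem hScomp hSm B hB
      obtain ⟨A, h1, h2, h3⟩ := exists_good hScl hSc (insert a B) (hB.insert a)
      exact ⟨A, fun _ => ⟨(subset_insert a B).trans h1, h2, h3, a, ha, h1 (mem_insert a B),
        x, hx, hxa⟩⟩
    · exact ⟨∅, fun h => absurd h hB⟩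
  choose G hG using hnext
  let A : W → Set κ := (wellFounded_lt (α := W)).fix fun α ih => G (⋃ β : Iio α, ih β.1 β.2)
  have hA : ∀ α, A α = G (⋃ β : Iio α, A β.1) := fun α =>
    (wellFounded_lt (α := W)).fix_eq (fun α (ih : ∀ β, β < α → Set κ) =>
      G (⋃ β : Iio α, ih β.1 β.2)) α
  have hAc : ∀ α, (A α).Countable := by
    intro α
    induction α using (wellFounded_lt (α := W)).induction with
    | _ α ih =>
    have : Countable (Iio α) := (hW α).to_subtype
    have hcu : (⋃ β : Iio α, A β.1).Countable := countable_iUnion fun β => ih β.1 β.2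
    rw [hA]
    exact (hG _ hcu).2.1
  have hcu : ∀ α, (⋃ β : Iio α, A β.1).Countable := fun α => by
    have : Countable (Iio α) := (hW α).to_subtype
    exact countable_iUnion fun β => hAc β.1
  have hAg : ∀ α, Good S (A α) := fun α => by
    rw [hA]; exact (hG _ (hcu α)).2.2.1
  have hAlt : ∀ α β, β < α → A β ⊆ A α := fun α β h => by
    rw [hA α]
    exact (subset_iUnion (fun γ : Iio α => A γ.1) ⟨β, h⟩).trans (hG _ (hcu α)).1
  have hAle : ∀ α β, β ≤ α → A β ⊆ A α := fun α β h => by
    rcases h.lt_or_eq with h | h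
    · exact hAlt α β h
    · rw [h]
  have hAbig : ∀ α, ∃ β a, a ∉ A α ∧ a ∈ A β ∧ ∃ x ∈ S, x a ≠ 0 := fun α => by
    obtain ⟨β, hβ⟩ := hbd {α} (countable_singleton α)
    obtain ⟨a, h1, h2, h3⟩ := (hG _ (hcu β)).2.2.2
    rw [← hA] at h2
    exact ⟨β, a, fun h => h1 (mem_iUnion.2 ⟨⟨α, hβ α rfl⟩, h⟩), h2, h3⟩
  set U : Set κ := ⋃ α, A α with hU
  have hAU : ∀ α, A α ⊆ U := fun α => subset_iUnion A α
  -- every countable subset of `U` is in some `A α`
  have hcap : ∀ C : Set κ, C.Countable → C ⊆ U → ∃ α, C ⊆ A α := by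
    intro C hC hCU
    choose! φ hφ using fun a (ha : a ∈ C) => mem_iUnion.1 (hCU ha)
    obtain ⟨α, hα⟩ := hbd' (φ '' C) (hC.image φ)
    exact ⟨α, fun a ha => hAle α (φ a) (hα _ (mem_image_of_mem φ ha)) (hφ a ha)⟩
  have hUg : Good S U := by
    intro x hx
    obtain ⟨α, hα⟩ := hcap ({a | x a ≠ 0} ∩ U) ((hSc x hx).mono inter_subset_left)
      inter_subset_right
    have : cut U x = cut (A α) x :=
      cut_congr fun a ha => ⟨fun h => hα ⟨ha, h⟩, fun h => hAU α h⟩
    rw [this]
    exact hAg α x hx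
  set L : Set (κ → ℝ) := {x | x ∈ S ∧ ∀ a, a ∉ U → x a = 0} with hL
  have hLcl : IsClosed L := by
    have : L = S ∩ ⋂ a : κ, {x | a ∉ U → x a = 0} := by
      ext x; simp [hL]
    rw [this]
    refine hScl.inter (isClosed_iInter fun a => ?_)
    by_cases ha : a ∈ U
    · simp [ha]
    · simp only [ha, not_false_eq_true, forall_true_left]
      exact isClosed_eq (continuous_apply a) continuous_const
  have hLcomp : IsCompact L := hScomp.of_isClosed_subset hLcl fun x hx => hx.1
  have : CompactSpace L := isCompact_iff_compactSpace.1 hLcomp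
  have hcutL : ∀ B ⊆ U, Good S B → ∀ x ∈ S, cut B x ∈ L := fun B hB hg x hx =>
    ⟨hg x hx, fun a ha => cut_not_mem fun h => ha (hB h)⟩
  let i : C(L, K) := ⟨fun x => H.symm ⟨x.1, x.2.1⟩, by
    refine H.symm.continuous.comp ?_
    exact continuous_subtype_val.subtype_mk _⟩
  let ρ : C(K, L) := ⟨fun k => ⟨cut U (H k).1, hcutL U subset_rfl hUg _ (H k).2⟩, by
    refine Continuous.subtype_mk ?_ _
    exact (continuous_cut U).comp (continuous_subtype_val.comp H.continuous)⟩
  let r : W → L → L := fun α x => ⟨cut (A α) x.1, hcutL _ (hAU α) (hAg α) _ x.2.1⟩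
  have hrc : ∀ α, Continuous (r α) := fun α => by
    refine Continuous.subtype_mk ?_ _
    exact (continuous_cut _).comp continuous_subtype_val
  have hcomp : ∀ α β, α ≤ β → ∀ x, r α (r β x) = r α x := by
    intro α β h x
    apply Subtype.ext
    simp only [r]
    rw [cut_cut, inter_eq_left.2 (hAle β α h)]
  refine ⟨L, inferInstance, inferInstance, inferInstance, i, ρ, ?_, ⟨⟨r, hrc, hcomp, ?_, ?_, ?_,
    ?_⟩⟩⟩
  · intro x
    apply Subtype.ext
    simp only [i, ρ, ContinuousMap.coe_mk, Homeomorph.apply_symm_apply]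
    exact cut_eq_self x.2.2
  · intro α β h x
    apply Subtype.ext
    simp only [r]
    rw [cut_cut, inter_eq_right.2 (hAle β α h)]
  · intro x
    obtain ⟨α, hα⟩ := hcap {a | x.1 a ≠ 0} (hSc x.1 x.2.1) (fun a ha => by
      by_contra hcon
      exact ha (x.2.2 a hcon))
    refine ⟨α, Subtype.ext ?_⟩
    exact cut_eq_self fun a ha => by
      by_contra hcon
      exact ha (hα hcon)
  · refine fn_of r hbd' hcomp (fun a : κ => ⟨fun x : L => x.1 a,
      (continuous_apply a).comp continuous_subtype_val⟩) ?_ ?_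
    · intro x y hxy
      by_contra hcon
      push Not at hcon
      exact hxy (Subtype.ext (funext hcon))
    · intro a
      by_cases ha : a ∈ U
      · obtain ⟨α, hα⟩ := mem_iUnion.1 ha
        exact ⟨α, fun x => cut_mem hα⟩
      · refine ⟨Classical.arbitrary W, fun x => ?_⟩
        simp only [ContinuousMap.coe_mk]
        rw [x.2.2 a ha, (r _ x).2.2 a ha]
  · intro α
    obtain ⟨β, a, h1, h2, x, hx, hxa⟩ := hAbig α
    refine ⟨⟨cut U x, hcutL U subset_rfl hUg _ hx⟩, fun h => hxa ?_⟩
    have h3 := congrFun (congrArg Subtype.val h) a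
    simp only [r] at h3
    rw [cut_not_mem h1, cut_mem (hAU β h2)] at h3
    exact h3.symm

end main

end Pool.Agent.helper20.Tw
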